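import Pool.Agent.N993.WU.Defs
import Pool.Agent.N592.WT.NORM

set_option autoImplicit false

/-!
# Project WU (helper993), leaf NORM by helper398 (after helper592): internal form of a reduced
spherical diagram
-/

namespace Pool.Agent.N398.WUN

open Pool.Agent.N993.WT (flip SphericalDiagram DR RW Gen word)
open Pool.Agent.N993.WU
open Finset

section general

variable {V J S : Type} (A : Dat V J S)

/-- positivity of the lengths -/
structure Ps : Prop where
  c_pos : ∀ j, 0 < A.c j
  ℓ_pos : ∀ s, 0 < A.ℓ s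
  lu_pos : ∀ j, 0 < A.lu j
  lv_pos : ∀ s, 0 < A.lv s

/-- the first side of a cell -/
def start : J ⊕ S → Side J S
  | Sum.inl j => .uu j true 0
  | Sum.inr s => .st s true

/-- the direction of a side -/
def tau : Side J S → Bool
  | .uu _ τ _ => τ
  | .up _ τ _ => τ
  | .vv _ τ _ _ => τ
  | .dn _ τ _ => τ
  | .st _ τ => τ
  | .lt _ τ _ => τ

/-- the cell of a side -/
def cel : Side J S → J ⊕ S
  | .uu j _ _ => Sum.inl j
  | .up j _ _ => Sum.inl j
  | .vv j _ _ _ => Sum.inl j
  | .dn j _ _ => Sum.inl j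
  | .st s _ => Sum.inr s
  | .lt s _ _ => Sum.inr s

/-- the sides in the order in which they are read -/
def F (e : J ⊕ S) (p : ℕ) : Side J S := A.nx^[p] (start e)

theorem F_zero (e : J ⊕ S) : F A e 0 = start e := rfl

theorem F_succ (e : J ⊕ S) (p : ℕ) : F A e (p + 1) = A.nx (F A e p) := by
  unfold F
  rw [Function.iterate_succ_apply']

theorem kap_mirror (j : J) (τ : Bool) (k : ℕ) (hk : k < A.c j) :
    A.kap j (!τ) (A.c j - 1 - k) = A.kap j τ k := by
  unfold Dat.kap
  cases τ
  · rfl
  · simp only [Bool.not_true, Bool.false_eq_true, if_false, if_true]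
    rw [show A.c j - 1 - (A.c j - 1 - k) = k by omega]

theorem tau_nx (x : Side J S) : tau (A.nx x) = tau x := by
  rcases x with ⟨j, τ, i⟩ | ⟨j, τ, k⟩ | ⟨j, τ, k, i⟩ | ⟨j, τ, k⟩ | ⟨s, τ⟩ | ⟨s, τ, i⟩ <;>
    simp only [Dat.nx] <;> (try split_ifs) <;> rfl

theorem cel_nx (x : Side J S) : cel (A.nx x) = cel x := by
  rcases x with ⟨j, τ, i⟩ | ⟨j, τ, k⟩ | ⟨j, τ, k, i⟩ | ⟨j, τ, k⟩ | ⟨s, τ⟩ | ⟨s, τ, i⟩ <;>
    simp only [Dat.nx] <;> (try split_ifs) <;> rfl

theorem tau_mirror (x : Side J S) : tau (A.mirror x) = !(tau x) := by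
  rcases x with ⟨j, τ, i⟩ | ⟨j, τ, k⟩ | ⟨j, τ, k, i⟩ | ⟨j, τ, k⟩ | ⟨s, τ⟩ | ⟨s, τ, i⟩ <;> rfl

theorem tau_F (e : J ⊕ S) (p : ℕ) : tau (F A e p) = true := by
  induction p with
  | zero => rcases e with j | s <;> rfl
  | succ p ih => rw [F_succ, tau_nx, ih]

theorem cel_F (e : J ⊕ S) (p : ℕ) : cel (F A e p) = e := by
  induction p with
  | zero => rcases e with j | s <;> rfl
  | succ p ih => rw [F_succ, cel_nx, ih]

variable {A}

theorem valid_nx (hA : Ps A) {x : Side J S} (hx : A.Valid x) : A.Valid (A.nx x) := by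
  rcases x with ⟨j, τ, i⟩ | ⟨j, τ, k⟩ | ⟨j, τ, k, i⟩ | ⟨j, τ, k⟩ | ⟨s, τ⟩ | ⟨s, τ, i⟩
  · simp only [Dat.nx]
    split_ifs with h
    · exact h
    · exact hA.c_pos j
  · exact ⟨hx, hA.lv_pos _⟩
  · obtain ⟨h1, h2⟩ := hx
    simp only [Dat.nx]
    split_ifs with h
    · exact ⟨h1, h⟩
    · exact h1
  · simp only [Dat.nx]
    split_ifs with h
    · exact h
    · exact hA.lu_pos j
  · exact hA.ℓ_pos s
  · simp only [Dat.nx]
    split_ifs with h
    · exact h
    · trivial

theorem valid_F (hA : Ps A) (e : J ⊕ S) (p : ℕ) : A.Valid (F A e p) := by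
  induction p with
  | zero =>
    rcases e with j | s
    · exact hA.lu_pos j
    · trivial
  | succ p ih =>
    rw [F_succ]
    exact valid_nx hA ih

theorem valid_mirror {x : Side J S} (hx : A.Valid x) : A.Valid (A.mirror x) := by
  rcases x with ⟨j, τ, i⟩ | ⟨j, τ, k⟩ | ⟨j, τ, k, i⟩ | ⟨j, τ, k⟩ | ⟨s, τ⟩ | ⟨s, τ, i⟩
  · have hx' : i < A.lu j := hx
    show A.lu j - 1 - i < A.lu j
    omega
  · have hx' : k < A.c j := hx
    show A.c j - 1 - k < A.c j
    omega
  · obtain ⟨h1, h2⟩ := hx
    refine ⟨?_, ?_⟩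
    · omega
    · rw [kap_mirror A j τ k h1]
      omega
  · have hx' : k < A.c j := hx
    show A.c j - 1 - k < A.c j
    omega
  · trivial
  · have hx' : i < A.ℓ s := hx
    show A.ℓ s - 1 - i < A.ℓ s
    omega

theorem mirror_mirror {x : Side J S} (hx : A.Valid x) : A.mirror (A.mirror x) = x := by
  rcases x with ⟨j, τ, i⟩ | ⟨j, τ, k⟩ | ⟨j, τ, k, i⟩ | ⟨j, τ, k⟩ | ⟨s, τ⟩ | ⟨s, τ, i⟩
  · have hx' : i < A.lu j := hx
    simp only [Dat.mirror, Bool.not_not]
    rw [show A.lu j - 1 - (A.lu j - 1 - i) = i by omega]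
  · have hx' : k < A.c j := hx
    simp only [Dat.mirror, Bool.not_not]
    rw [show A.c j - 1 - (A.c j - 1 - k) = k by omega]
  · obtain ⟨h1, h2⟩ := hx
    simp only [Dat.mirror, Bool.not_not]
    rw [kap_mirror A j τ k h1, show A.c j - 1 - (A.c j - 1 - k) = k by omega,
      show A.lv (A.kap j τ k) - 1 - (A.lv (A.kap j τ k) - 1 - i) = i by omega]
  · have hx' : k < A.c j := hx
    simp only [Dat.mirror, Bool.not_not]
    rw [show A.c j - 1 - (A.c j - 1 - k) = k by omega]
  · simp only [Dat.mirror, Bool.not_not]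
  · have hx' : i < A.ℓ s := hx
    simp only [Dat.mirror, Bool.not_not]
    rw [show A.ℓ s - 1 - (A.ℓ s - 1 - i) = i by omega]

theorem nx_mirror_nx (hA : Ps A) {x : Side J S} (hx : A.Valid x) :
    A.nx (A.mirror (A.nx x)) = A.mirror x := by
  rcases x with ⟨j, τ, i⟩ | ⟨j, τ, k⟩ | ⟨j, τ, k, i⟩ | ⟨j, τ, k⟩ | ⟨s, τ⟩ | ⟨s, τ, i⟩
  · have hx' : i < A.lu j := hx
    have hc := hA.c_pos j
    by_cases h : i + 1 < A.lu j
    · simp only [Dat.nx, if_pos h, Dat.mirror]
      rw [if_pos (by omega), show A.lu j - 1 - (i + 1) + 1 = A.lu j - 1 - i by omega]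
    · simp only [Dat.nx, if_neg h, Dat.mirror]
      rw [if_neg (by omega), show A.lu j - 1 - i = 0 by omega]
  · have hx' : k < A.c j := hx
    have hv := hA.lv_pos (A.kap j τ k)
    simp only [Dat.nx, Dat.mirror]
    rw [kap_mirror A j τ k hx', if_neg (by omega)]
  · obtain ⟨h1, h2⟩ := hx
    by_cases h : i + 1 < A.lv (A.kap j τ k)
    · simp only [Dat.nx, if_pos h, Dat.mirror]
      rw [kap_mirror A j τ k h1, if_pos (by omega),
        show A.lv (A.kap j τ k) - 1 - (i + 1) + 1 = A.lv (A.kap j τ k) - 1 - i by omega]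
    · simp only [Dat.nx, if_neg h, Dat.mirror]
      rw [show A.lv (A.kap j τ k) - 1 - i = 0 by omega]
  · have hx' : k < A.c j := hx
    have hu := hA.lu_pos j
    by_cases h : k + 1 < A.c j
    · simp only [Dat.nx, if_pos h, Dat.mirror]
      rw [if_pos (by omega), show A.c j - 1 - (k + 1) + 1 = A.c j - 1 - k by omega]
    · simp only [Dat.nx, if_neg h, Dat.mirror]
      rw [if_neg (by omega), show A.c j - 1 - k = 0 by omega]
  · have hl := hA.ℓ_pos s
    simp only [Dat.nx, Dat.mirror]
    rw [if_neg (by omega)]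
  · have hx' : i < A.ℓ s := hx
    by_cases h : i + 1 < A.ℓ s
    · simp only [Dat.nx, if_pos h, Dat.mirror]
      rw [if_pos (by omega), show A.ℓ s - 1 - (i + 1) + 1 = A.ℓ s - 1 - i by omega]
    · simp only [Dat.nx, if_neg h, Dat.mirror]
      rw [show A.ℓ s - 1 - i = 0 by omega]

theorem flip_flip {X : Type} (y : X × Bool) : flip (flip y) = y := by
  unfold Pool.Agent.N993.WT.flip
  simp

theorem ow_mirror {V : Type} (w : ℕ → V × Bool) (l : ℕ) (τ : Bool) (i : ℕ) (hi : i < l) :
    ow w l (!τ) (l - 1 - i) = flip (ow w l τ i) := by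
  unfold ow
  cases τ
  · simp only [Bool.not_false, if_true, Bool.false_eq_true, if_false]
    rw [flip_flip]
  · simp only [Bool.not_true, if_true, Bool.false_eq_true, if_false]
    rw [show l - 1 - (l - 1 - i) = i by omega]

theorem letter_mirror {x : Side J S} (hx : A.Valid x) :
    A.letter (A.mirror x) = flip (A.letter x) := by
  rcases x with ⟨j, τ, i⟩ | ⟨j, τ, k⟩ | ⟨j, τ, k, i⟩ | ⟨j, τ, k⟩ | ⟨s, τ⟩ | ⟨s, τ, i⟩
  · simp only [Dat.mirror, Dat.letter]
    rw [ow_mirror _ _ _ _ hx]
    rfl
  · simp only [Dat.mirror, Dat.letter]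
    rw [kap_mirror A j τ k hx]
    rfl
  · obtain ⟨h1, h2⟩ := hx
    simp only [Dat.mirror, Dat.letter]
    rw [kap_mirror A j τ k h1, ow_mirror _ _ _ _ h2]
    rfl
  · simp only [Dat.mirror, Dat.letter]
    rw [kap_mirror A j τ k hx]
    rfl
  · rfl
  · simp only [Dat.mirror, Dat.letter, Dat.wd]
    rw [ow_mirror _ _ _ _ hx]
    rfl

/-! ### the place of a side -/

variable (A)

/-- the place of the side `up j true k` -/
def off (j : J) (k : ℕ) : ℕ := A.lu j + ∑ k' ∈ range k, (A.lv (A.st j k') + 2)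

/-- the place of a side -/
def rank : Side J S → ℕ
  | .uu _ _ i => i
  | .up j _ k => off A j k
  | .vv j _ k i => off A j k + 1 + i
  | .dn j _ k => off A j k + 1 + A.lv (A.st j k)
  | .st _ _ => 0
  | .lt _ _ i => i + 1

/-- the length of the boundary of a cell -/
def len : J ⊕ S → ℕ
  | Sum.inl j => off A j (A.c j)
  | Sum.inr s => A.ℓ s + 1

theorem off_succ (j : J) (k : ℕ) : off A j (k + 1) = off A j k + A.lv (A.st j k) + 2 := by
  unfold off
  rw [sum_range_succ]
  ring

theorem off_mono (j : J) {k k' : ℕ} (h : k ≤ k') : off A j k ≤ off A j k' := by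
  induction k', h using Nat.le_induction with
  | base => exact le_rfl
  | succ k' _ ih =>
    rw [off_succ]
    omega

theorem off_zero (j : J) : off A j 0 = A.lu j := by
  unfold off
  simp

variable {A}

theorem rank_nx (hA : Ps A) {x : Side J S} (hx : A.Valid x) (ht : tau x = true) :
    rank A (A.nx x) = if rank A x + 1 = len A (cel x) then 0 else rank A x + 1 := by
  rcases x with ⟨j, τ, i⟩ | ⟨j, τ, k⟩ | ⟨j, τ, k, i⟩ | ⟨j, τ, k⟩ | ⟨s, τ⟩ | ⟨s, τ, i⟩
  · have hx' : i < A.lu j := hx
    have h1 := off_mono A j (hA.c_pos j)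
    have h2 := off_succ A j 0
    rw [off_zero] at h2
    show _ = if i + 1 = off A j (A.c j) then 0 else i + 1
    have h1' : off A j (0 + 1) ≤ off A j (A.c j) := h1
    rw [if_neg (by omega)]
    simp only [Dat.nx]
    split_ifs with h
    · rfl
    · show off A j 0 = _
      rw [off_zero]
      omega
  · have hx' : k < A.c j := hx
    have h1 : off A j (k + 1) ≤ off A j (A.c j) := off_mono A j hx'
    have h2 := off_succ A j k
    show _ = if off A j k + 1 = off A j (A.c j) then 0 else off A j k + 1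
    rw [if_neg (by omega)]
    rfl
  · obtain ⟨h3, h4⟩ := hx
    obtain rfl : τ = true := ht
    have hk : A.kap j true k = A.st j k := rfl
    rw [hk] at h4
    have h1 : off A j (k + 1) ≤ off A j (A.c j) := off_mono A j h3
    have h2 := off_succ A j k
    show _ = if off A j k + 1 + i + 1 = off A j (A.c j) then 0 else off A j k + 1 + i + 1
    rw [if_neg (by omega)]
    simp only [Dat.nx]
    rw [hk]
    split_ifs with h
    · rfl
    · show off A j k + 1 + A.lv (A.st j k) = _
      omega
  · have hx' : k < A.c j := hx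
    obtain rfl : τ = true := ht
    have h1 : off A j (k + 1) ≤ off A j (A.c j) := off_mono A j hx'
    have h2 := off_succ A j k
    show _ = if off A j k + 1 + A.lv (A.st j k) + 1 = off A j (A.c j) then 0 else
      off A j k + 1 + A.lv (A.st j k) + 1
    by_cases h : k + 1 < A.c j
    · have h3 : off A j (k + 1 + 1) ≤ off A j (A.c j) := off_mono A j h
      have h4 := off_succ A j (k + 1)
      rw [if_neg (by omega)]
      simp only [Dat.nx, if_pos h]
      show off A j (k + 1) = _
      omega
    · have h3 : A.c j = k + 1 := by omega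
      rw [if_pos (by rw [h3]; omega)]
      simp only [Dat.nx, if_neg h]
      rfl
  · have hl := hA.ℓ_pos s
    show _ = if 0 + 1 = A.ℓ s + 1 then 0 else 0 + 1
    rw [if_neg (by omega)]
    rfl
  · have hx' : i < A.ℓ s := hx
    show _ = if i + 1 + 1 = A.ℓ s + 1 then 0 else i + 1 + 1
    simp only [Dat.nx]
    split_ifs with h h' h'
    · omega
    · rfl
    · rfl
    · omega

theorem rank_F (hA : Ps A) (e : J ⊕ S) (p : ℕ) (hp : p < len A e) : rank A (F A e p) = p := by
  induction p with
  | zero => rcases e with j | s <;> rfl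
  | succ p ih =>
    rw [F_succ, rank_nx hA (valid_F hA e p) (tau_F A e p), cel_F, ih (by omega), if_neg (by omega)]

/-! ### reading words -/

variable (A)

/-- the word `w` is read along the sides from `x` to `y` -/
def Walk (x : Side J S) (w : List ((V ⊕ S) × Bool)) (y : Side J S) : Prop :=
  (∀ p z, w[p]? = some z → A.letter (A.nx^[p] x) = z) ∧ A.nx^[w.length] x = y

variable {A}

theorem Walk.append {x y z : Side J S} {w w' : List ((V ⊕ S) × Bool)} (h1 : Walk A x w y)
    (h2 : Walk A y w' z) : Walk A x (w ++ w') z := by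
  obtain ⟨a1, a2⟩ := h1
  obtain ⟨b1, b2⟩ := h2
  refine ⟨fun p q hq => ?_, ?_⟩
  · by_cases hp : p < w.length
    · rw [List.getElem?_append_left hp] at hq
      exact a1 p q hq
    · rw [List.getElem?_append_right (by omega)] at hq
      have h3 := b1 _ q hq
      rw [← a2, ← Function.iterate_add_apply, show p - w.length + w.length = p by omega] at h3
      exact h3
  · rw [List.length_append, add_comm, Function.iterate_add_apply, a2, b2]

theorem Walk.single {x : Side J S} {z : (V ⊕ S) × Bool} (h : A.letter x = z) :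
    Walk A x [z] (A.nx x) := by
  refine ⟨fun p q hq => ?_, rfl⟩
  rcases p with _ | p
  · have : z = q := Option.some.inj hq
    rw [← this]
    exact h
  · simp at hq

theorem Walk.seg (f : ℕ → Side J S) (y : Side J S) (w : List ((V ⊕ S) × Bool)) (l : ℕ)
    (hl : 0 < l) (hw : w.length = l) (h1 : ∀ i, i + 1 < l → A.nx (f i) = f (i + 1))
    (h2 : A.nx (f (l - 1)) = y) (h3 : ∀ i z, i < l → w[i]? = some z → A.letter (f i) = z) :
    Walk A (f 0) w y := by
  have h4 : ∀ i, i < l → A.nx^[i] (f 0) = f i := by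
    intro i
    induction i with
    | zero => intro _; rfl
    | succ i ih =>
      intro hi
      rw [Function.iterate_succ_apply', ih (by omega), h1 i hi]
  refine ⟨fun p z hz => ?_, ?_⟩
  · have hp : p < l := by
      rw [← hw]
      exact (List.getElem?_eq_some_iff.1 hz).1
    rw [h4 p hp]
    exact h3 p z hp hz
  · rw [hw]
    obtain ⟨r, rfl⟩ : ∃ r, l = r + 1 := ⟨l - 1, by omega⟩
    rw [Function.iterate_succ_apply', h4 r (by omega)]
    exact h2

theorem Walk.flat : ∀ (N : ℕ) (G : Fin N → List ((V ⊕ S) × Bool)) (X : ℕ → Side J S)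
    (_ : ∀ k : Fin N, Walk A (X k) (G k) (X (k + 1))),
    Walk A (X 0) (List.ofFn G).flatten (X N)
  | 0, _, _, _ => ⟨fun p z hz => by simp at hz, rfl⟩
  | N + 1, G, X, h => by
    rw [List.ofFn_succ, List.flatten_cons]
    refine Walk.append (h 0) ?_
    exact Walk.flat N (fun i => G i.succ) (fun k => X (k + 1)) (fun k => h k.succ)

end general

/-! ### the relators -/

section rels

variable {n m : ℕ} {c : Fin m → ℕ} (hc : ∀ j, 0 < c j) (x₀ : Fin n × Bool)
  (U : Fin m → List (Fin n × Bool)) (v : ((j : Fin m) × Fin (c j)) → List (Fin n × Bool))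
  {ℓ : ((j : Fin m) × Fin (c j)) → ℕ} (g : ∀ t, RW n (ℓ t))

theorem ps (hU : ∀ j, CR (U j)) (hv : ∀ t, CR (v t)) (hl : ∀ t, 0 < ℓ t) :
    Ps (dat hc x₀ U v g) :=
  ⟨hc, hl, fun j => (hU j).1, fun t => (hv t).1⟩

theorem st_eq (j : Fin m) (k : ℕ) (hk : k < c j) : (dat hc x₀ U v g).st j k = ⟨j, ⟨k, hk⟩⟩ := by
  show (⟨j, ⟨k % c j, _⟩⟩ : (j : Fin m) × Fin (c j)) = ⟨j, ⟨k, hk⟩⟩
  congr 2
  exact Nat.mod_eq_of_lt hk

theorem walk_emb (w : List (Fin n × Bool)) (hw : 0 < w.length)
    (f : ℕ → Side (Fin m) ((j : Fin m) × Fin (c j))) (y : Side (Fin m) ((j : Fin m) × Fin (c j)))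
    (h1 : ∀ i, i + 1 < w.length → (dat hc x₀ U v g).nx (f i) = f (i + 1))
    (h2 : (dat hc x₀ U v g).nx (f (w.length - 1)) = y)
    (h3 : ∀ i, i < w.length → (dat hc x₀ U v g).letter (f i) =
      (Sum.inl (w.getD i x₀).1, (w.getD i x₀).2)) :
    Walk (dat hc x₀ U v g) (f 0) (emb w) y := by
  refine Walk.seg f y (emb w) w.length hw (by unfold emb; rw [List.length_map]) h1 h2 ?_
  intro i z hi hz
  rw [h3 i hi]
  unfold emb at hz
  rw [List.getElem?_map, List.getElem?_eq_getElem hi] at hz
  have hz' : (Sum.inl (w[i]).1, (w[i]).2) = z := Option.some.inj hz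
  rw [← hz', List.getD_eq_getElem _ _ hi]

theorem walk_rel (hU : ∀ j, CR (U j)) (hv : ∀ t, CR (v t)) (hl : ∀ t, 0 < ℓ t)
    (e : Fin m ⊕ ((j : Fin m) × Fin (c j))) :
    Walk (dat hc x₀ U v g) (start e) (rel U v g e) (start e) := by
  rcases e with j | s
  · show Walk (dat hc x₀ U v g) (.uu j true 0) (emb (U j) ++ (List.ofFn fun k : Fin (c j) =>
      [(Sum.inr ⟨j, k⟩, true)] ++ emb (v ⟨j, k⟩) ++ [(Sum.inr ⟨j, k⟩, false)]).flatten)
      (.uu j true 0)
    refine Walk.append (y := .up j true 0) ?_ ?_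
    · refine walk_emb hc x₀ U v g (U j) (hU j).1 (fun i => .uu j true i) _ ?_ ?_ ?_
      · intro i hi
        show (if i + 1 < (U j).length then Side.uu j true (i + 1) else _) = _
        rw [if_pos hi]
      · show (if (U j).length - 1 + 1 < (U j).length then Side.uu j true _ else _) = _
        rw [if_neg (by omega)]
      · intro i _
        rfl
    · have hX : ∀ k : Fin (c j), Walk (dat hc x₀ U v g)
          ((fun k : ℕ => if k < c j then Side.up j true k else Side.uu j true 0) k)
          ((fun k : Fin (c j) => ([(Sum.inr ⟨j, k⟩, true)] ++ emb (v ⟨j, k⟩) ++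
            [(Sum.inr ⟨j, k⟩, false)] : List (Gen n c × Bool))) k)
          ((fun k : ℕ => if k < c j then Side.up j true k else Side.uu j true 0) (k + 1)) := by
        intro k
        have hk : (dat hc x₀ U v g).kap j true (k : ℕ) = ⟨j, k⟩ := st_eq hc x₀ U v g j k k.2
        simp only [if_pos k.2]
        refine Walk.append (y := .dn j true k) (Walk.append (y := .vv j true k 0) ?_ ?_) ?_
        · refine Walk.single (x := .up j true k) ?_
          show (Sum.inr ((dat hc x₀ U v g).kap j true (k : ℕ)), true) = _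
          rw [hk]
        · refine walk_emb hc x₀ U v g (v ⟨j, k⟩) (hv _).1 (fun i => .vv j true k i) _ ?_ ?_ ?_
          · intro i hi
            simp only [Dat.nx]
            rw [hk]
            show (if i + 1 < (v ⟨j, k⟩).length then _ else _) = _
            rw [if_pos hi]
          · simp only [Dat.nx]
            rw [hk]
            show (if (v ⟨j, k⟩).length - 1 + 1 < (v ⟨j, k⟩).length then _ else _) = _
            rw [if_neg (by omega)]
          · intro i _
            simp only [Dat.letter]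
            rw [hk]
            rfl
        · have h2 : (if (k : ℕ) + 1 < c j then (Side.up j true ((k : ℕ) + 1) :
              Side (Fin m) ((j : Fin m) × Fin (c j))) else Side.uu j true 0) =
              (dat hc x₀ U v g).nx (.dn j true k) := rfl
          rw [h2]
          refine Walk.single ?_
          show (Sum.inr ((dat hc x₀ U v g).kap j true (k : ℕ)), false) = _
          rw [hk]
      have key := Walk.flat (A := dat hc x₀ U v g) (c j)
        (fun k : Fin (c j) => ([(Sum.inr ⟨j, k⟩, true)] ++ emb (v ⟨j, k⟩) ++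
            [(Sum.inr ⟨j, k⟩, false)] : List (Gen n c × Bool)))
        (fun k : ℕ => if k < c j then Side.up j true k else Side.uu j true 0) hX
      simp only [if_pos (hc j), lt_irrefl, if_false] at key
      exact key
  · show Walk (dat hc x₀ U v g) (.st s true) ([(Sum.inr s, false)] ++
      List.ofFn fun i => (Sum.inl ((g s).1 i).1, ((g s).1 i).2)) (.st s true)
    refine Walk.append (y := .lt s true 0) (Walk.single (x := .st s true) rfl) ?_
    refine Walk.seg (fun i => .lt s true i) _ _ (ℓ s) (hl s) (by rw [List.length_ofFn]) ?_ ?_ ?_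
    · intro i hi
      show (if i + 1 < ℓ s then Side.lt s true (i + 1) else _) = _
      rw [if_pos hi]
    · have := hl s
      show (if ℓ s - 1 + 1 < ℓ s then Side.lt s true _ else _) = _
      rw [if_neg (by omega)]
    · intro i z hi hz
      rw [List.getElem?_ofFn, dif_pos hi] at hz
      have hz' := Option.some.inj hz
      rw [← hz']
      show (Sum.inl (if h : i < ℓ s then (g s).1 ⟨i, h⟩ else x₀).1,
        (if h : i < ℓ s then (g s).1 ⟨i, h⟩ else x₀).2) = _
      rw [dif_pos hi]

theorem rel_len (e : Fin m ⊕ ((j : Fin m) × Fin (c j))) :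
    (rel U v g e).length = len (dat hc x₀ U v g) e := by
  rcases e with j | s
  · have hrel : rel U v g (Sum.inl j) = emb (U j) ++ (List.ofFn fun k : Fin (c j) =>
      [(Sum.inr ⟨j, k⟩, true)] ++ emb (v ⟨j, k⟩) ++ [(Sum.inr ⟨j, k⟩, false)]).flatten := rfl
    rw [hrel]
    show _ = (U j).length + ∑ k' ∈ range (c j),
      ((dat hc x₀ U v g).lv ((dat hc x₀ U v g).st j k') + 2)
    rw [List.length_append, List.length_flatten, List.map_ofFn, List.sum_ofFn, sum_range]
    congr 1
    · unfold emb
      rw [List.length_map]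
    · refine sum_congr rfl fun k _ => ?_
      rw [st_eq hc x₀ U v g j k k.2]
      show ((((Sum.inr (⟨j, k⟩ : (j : Fin m) × Fin (c j)), true) : Gen n c × Bool) :: []) ++
        emb (v ⟨j, k⟩) ++ (((Sum.inr (⟨j, k⟩ : (j : Fin m) × Fin (c j)), false) :
          Gen n c × Bool) :: [])).length = (v ⟨j, k⟩).length + 2
      unfold emb
      simp
  · show ((Sum.inr s, false) :: List.ofFn _ : List (Gen n c × Bool)).length = ℓ s + 1
    rw [List.length_cons, List.length_ofFn]

end rels

/-! ### the diagram -/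

/-- the type of the side number `p` of the cell `e` read in direction `τ` -/
def tyOf {V J S : Type} (A : Dat V J S) (e : J ⊕ S) (τ : Bool) (p : ℕ) : Side J S :=
  if τ then F A e p else A.mirror (F A e p)

theorem t_NORM : S_NORM := by
  intro n m c hc x₀ U v hU hv ℓ hl g D hD
  have := D.finD
  have hA : Ps (dat hc x₀ U v g) := ps hc x₀ U v g hU hv hl
  have hlen : ∀ d, D.pos d < (rel U v g (D.cell d)).length := fun d =>
    (List.getElem?_eq_some_iff.1 (D.lett_eq d)).1
  have hlen' : ∀ d, D.pos d < len (dat hc x₀ U v g) (D.cell d) := by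
    intro d
    rw [← rel_len hc x₀ U v g]
    exact hlen d
  have hlett : ∀ d, (dat hc x₀ U v g).letter (tyOf (dat hc x₀ U v g) (D.cell d) (D.sgn d) (D.pos d)) =
      D.lett d := by
    intro d
    have h1 := (walk_rel hc x₀ U v g hU hv hl (D.cell d)).1 _ _ (D.lett_eq d)
    have h2 : (dat hc x₀ U v g).letter (F (dat hc x₀ U v g) (D.cell d) (D.pos d)) =
      if D.sgn d then D.lett d else flip (D.lett d) := h1
    unfold tyOf
    rcases hs : D.sgn d
    · rw [if_neg Bool.false_ne_true, letter_mirror (valid_F hA _ _), h2, hs,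
        if_neg Bool.false_ne_true, flip_flip]
    · rw [if_pos rfl, h2, hs, if_pos rfl]
  have hwrap : ∀ e, F (dat hc x₀ U v g) e (rel U v g e).length = F (dat hc x₀ U v g) e 0 := fun e =>
    (walk_rel hc x₀ U v g hU hv hl e).2
  have hinj : ∀ e e' p p', p < len (dat hc x₀ U v g) e → p' < len (dat hc x₀ U v g) e' →
      F (dat hc x₀ U v g) e p = F (dat hc x₀ U v g) e' p' → e = e' ∧ p = p' := by
    intro e e' p p' hp hp' h
    refine ⟨?_, ?_⟩
    · rw [← cel_F (dat hc x₀ U v g) e p, h, cel_F]
    · rw [← rank_F hA e p hp, h, rank_F hA e' p' hp']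
  have htau : ∀ e τ p, tau (tyOf (dat hc x₀ U v g) e τ p) = τ := by
    intro e τ p
    unfold tyOf
    cases τ
    · rw [if_neg Bool.false_ne_true, tau_mirror, tau_F]
      rfl
    · rw [if_pos rfl, tau_F]
  have hmir : ∀ e τ p, (dat hc x₀ U v g).mirror (tyOf (dat hc x₀ U v g) e τ p) =
      tyOf (dat hc x₀ U v g) e (!τ) p := by
    intro e τ p
    unfold tyOf
    cases τ
    · rw [if_neg Bool.false_ne_true, mirror_mirror (valid_F hA _ _)]
      rfl
    · rw [if_pos rfl]
      rfl
  let N : ND (dat hc x₀ U v g) :=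
    { D := D.D
      finD := D.finD
      nxt := D.nxt
      opp := D.opp
      opp_opp := D.opp_opp
      ty := fun d => tyOf (dat hc x₀ U v g) (D.cell d) (D.sgn d) (D.pos d)
      valid := fun d => by
        unfold tyOf
        split_ifs
        · exact valid_F hA _ _
        · exact valid_mirror (valid_F hA _ _)
      ty_nxt := fun d => by
        rw [D.cell_nxt, D.sgn_nxt, D.pos_nxt]
        have h1 := hlen d
        rcases hs : D.sgn d
        · simp only [tyOf, Bool.false_eq_true, if_false]
          by_cases h0 : D.pos d = 0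
          · rw [if_pos h0, h0, ← hwrap]
            obtain ⟨r, hr⟩ : ∃ r, (rel U v g (D.cell d)).length = r + 1 :=
              ⟨(rel U v g (D.cell d)).length - 1, by omega⟩
            rw [hr, Nat.add_sub_cancel, F_succ, nx_mirror_nx hA (valid_F hA _ _)]
          · rw [if_neg h0]
            obtain ⟨r, hr⟩ : ∃ r, D.pos d = r + 1 := ⟨D.pos d - 1, by omega⟩
            rw [hr, Nat.add_sub_cancel, F_succ, nx_mirror_nx hA (valid_F hA _ _)]
        · simp only [tyOf, if_true]
          by_cases h0 : D.pos d + 1 = (rel U v g (D.cell d)).length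
          · rw [if_pos h0, ← hwrap, ← h0, F_succ]
          · rw [if_neg h0, F_succ]
      letter_opp := fun d => by
        rw [hlett, hlett, D.lett_opp]
      red := fun d h => by
        rw [hmir] at h
        have h1 := congrArg tau h
        rw [htau, htau] at h1
        have h2 : F (dat hc x₀ U v g) (D.cell (D.opp d)) (D.pos (D.opp d)) =
            F (dat hc x₀ U v g) (D.cell d) (D.pos d) := by
          rw [h1] at h
          rcases hs : D.sgn d
          · rw [hs] at h
            simpa [tyOf] using h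
          · rw [hs] at h
            have h3 := congrArg (dat hc x₀ U v g).mirror h
            rw [hmir, hmir] at h3
            simpa [tyOf] using h3
        obtain ⟨h3, h4⟩ := hinj _ _ _ _ (hlen' _) (hlen' _) h2
        refine hD d ⟨h3, h4, ?_⟩
        rw [h1]
        cases D.sgn d <;> decide }
  refine ⟨N, ?_⟩
  -- edges
  have hE : Nat.card D.D ≤ 2 * Nat.card (Quot fun x y : D.D => y = D.opp x) :=
    Pool.Agent.N592.WTN.card_opp D.opp D.opp_opp
  -- vertices
  have hV : Nat.card (Quot fun x y : D.D => y = D.opp (D.nxt.symm x)) ≤ Nat.card N.Vtx :=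
    Pool.Agent.N592.WTN.card_vtx N.σ
  -- faces
  have hmk : ∀ d, Quot.mk (fun x y : D.D => y = D.nxt x) (D.nxt d) = Quot.mk _ d := fun d =>
    (Quot.sound (r := fun x y : D.D => y = D.nxt x) (a := d) (b := D.nxt d) rfl).symm
  have hF0 : ∀ q r : ℕ, ∀ d, D.sgn d = false → D.pos d = q + r →
      ∃ d', D.pos d' = q ∧ D.cell d' = D.cell d ∧ D.sgn d' = false ∧
        Quot.mk (fun x y : D.D => y = D.nxt x) d' = Quot.mk _ d := by
    intro q r
    induction r with
    | zero => intro d hs h; exact ⟨d, h, rfl, hs, rfl⟩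
    | succ r ih =>
      intro d hs hq
      have h1 : D.pos (D.nxt d) = q + r := by
        rw [D.pos_nxt, hs, if_neg Bool.false_ne_true, if_neg (by omega)]
        omega
      obtain ⟨d', h2, h3, h4, h5⟩ := ih (D.nxt d) (by rw [D.sgn_nxt, hs]) h1
      exact ⟨d', h2, by rw [h3, D.cell_nxt], h4, h5.trans (hmk d)⟩
  have hF1 : ∀ q : ℕ, ∀ d, D.sgn d = true → D.pos d + q + 1 = (rel U v g (D.cell d)).length →
      ∃ d', D.pos d' = 0 ∧ D.sgn d' = true ∧
        Quot.mk (fun x y : D.D => y = D.nxt x) d' = Quot.mk _ d := by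
    intro q
    induction q with
    | zero =>
      intro d hs hq
      refine ⟨D.nxt d, ?_, by rw [D.sgn_nxt, hs], hmk d⟩
      rw [D.pos_nxt, hs, if_pos rfl, if_pos (by omega)]
    | succ q ih =>
      intro d hs hq
      have h1 : D.pos (D.nxt d) = D.pos d + 1 := by
        rw [D.pos_nxt, hs, if_pos rfl, if_neg (by omega)]
      obtain ⟨d', h2, h3, h4⟩ := ih (D.nxt d) (by rw [D.sgn_nxt, hs]) (by
        rw [h1, D.cell_nxt]
        omega)
      exact ⟨d', h2, h3, h4.trans (hmk d)⟩
  have hlast : ∀ j : Fin m, ∀ i, i < (U j).length →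
      F (dat hc x₀ U v g) (Sum.inl j) i = .uu j true i := by
    intro j i
    induction i with
    | zero => intro _; rfl
    | succ i ih =>
      intro hi
      rw [F_succ, ih (by omega)]
      show (if i + 1 < (U j).length then Side.uu j true (i + 1) else _) = _
      rw [if_pos hi]
  have hF : Nat.card (Quot fun x y : D.D => y = D.nxt x) ≤
      Nat.card {d : N.D // IsBase (N.ty d) ∨ IsSt (N.ty d)} := by
    have hfin : Finite {d : N.D // IsBase (N.ty d) ∨ IsSt (N.ty d)} :=
      inferInstanceAs (Finite {d : D.D // IsBase (N.ty d) ∨ IsSt (N.ty d)})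
    refine Nat.card_le_card_of_surjective (fun d => Quot.mk _ (d.1 : D.D)) ?_
    intro q
    obtain ⟨d, rfl⟩ := Quot.mk_surjective q
    rcases hs : D.sgn d with _ | _
    · -- go to the position zero, then around to the last position, then down
      obtain ⟨d0, a1, a2, a3, a4⟩ := hF0 0 (D.pos d) d hs (by omega)
      have hb1 : D.pos (D.nxt d0) = (rel U v g (D.cell d0)).length - 1 := by
        rw [D.pos_nxt, a3, if_neg Bool.false_ne_true, if_pos a1]
      rcases hcell : D.cell d0 with j | s
      · have hU1 := (hU j).1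
        have hl1 : (U j).length ≤ (rel U v g (D.cell d0)).length := by
          rw [hcell]
          show _ ≤ (emb (U j) ++ _).length
          rw [List.length_append]
          unfold emb
          rw [List.length_map]
          omega
        obtain ⟨d1, b1, b2, b3, b4⟩ := hF0 ((U j).length - 1)
          ((rel U v g (D.cell d0)).length - (U j).length) (D.nxt d0) (by rw [D.sgn_nxt, a3])
          (by rw [hb1]; omega)
        refine ⟨⟨d1, ?_⟩, (b4.trans (hmk d0)).trans a4⟩
        show IsBase (tyOf (dat hc x₀ U v g) (D.cell d1) (D.sgn d1) (D.pos d1)) ∨ _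
        rw [b1, b2, b3, D.cell_nxt, hcell]
        left
        simp only [tyOf, Bool.false_eq_true, if_false]
        rw [hlast j _ (by omega)]
        show (U j).length - 1 - ((U j).length - 1) = 0
        omega
      · refine ⟨⟨d0, ?_⟩, a4⟩
        show _ ∨ IsSt (tyOf (dat hc x₀ U v g) (D.cell d0) (D.sgn d0) (D.pos d0))
        rw [a1, a3, hcell]
        right
        trivial
    · obtain ⟨d', h2, h3, h4⟩ := hF1 ((rel U v g (D.cell d)).length - D.pos d - 1) d hs
        (by have := hlen d; omega)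
      refine ⟨⟨d', ?_⟩, h4⟩
      show IsBase (tyOf (dat hc x₀ U v g) (D.cell d') (D.sgn d') (D.pos d')) ∨
        IsSt (tyOf (dat hc x₀ U v g) (D.cell d') (D.sgn d') (D.pos d'))
      rw [h2, h3]
      rcases D.cell d' with j | s
      · left
        rfl
      · right
        trivial
  have h := D.euler
  show Nat.card D.D + 4 ≤ _
  omega

end Pool.Agent.N398.WUN
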